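import Pool.Agent.Helper87.PG.Stmts
import Pool.Agent.Helper87.VM.BS.Fin

/-!
Row SYL2 of the project PG: a transitive group of order a power of `2` of linear automorphisms
of determinant `1`.
-/

set_option autoImplicit false

namespace Pool.Agent.Helper87.PG

open MvPolynomial Pool.Agent.Helper48.VMRT Pool.Agent.Helper87.VM Pool.Agent.Helper87.TC

/-- linear automorphisms of determinant `1`, as scalar multiples of elements of a group -/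
def s2S {n : ℕ} (G : Subgroup ((Fin n → ℂ) ≃ₗ[ℂ] (Fin n → ℂ))) : Subgroup (G × ℂˣ) where
  carrier := {x | (x.2 : ℂ) ^ n *
    LinearMap.det ((x.1 : (Fin n → ℂ) ≃ₗ[ℂ] (Fin n → ℂ)) : (Fin n → ℂ) →ₗ[ℂ] (Fin n → ℂ)) = 1}
  mul_mem' := by
    rintro x y hx hy
    have h1 : (((x * y).1 : (Fin n → ℂ) ≃ₗ[ℂ] (Fin n → ℂ)) : (Fin n → ℂ) →ₗ[ℂ] (Fin n → ℂ)) =
        ((x.1 : (Fin n → ℂ) ≃ₗ[ℂ] (Fin n → ℂ)) : (Fin n → ℂ) →ₗ[ℂ] (Fin n → ℂ)) ∘ₗ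
        ((y.1 : (Fin n → ℂ) ≃ₗ[ℂ] (Fin n → ℂ)) : (Fin n → ℂ) →ₗ[ℂ] (Fin n → ℂ)) := rfl
    change ((x * y).2 : ℂ) ^ n * LinearMap.det _ = 1
    rw [h1, LinearMap.det_comp, Prod.snd_mul, Units.val_mul, mul_pow]
    have hx' : (x.2 : ℂ) ^ n * LinearMap.det
      ((x.1 : (Fin n → ℂ) ≃ₗ[ℂ] (Fin n → ℂ)) : (Fin n → ℂ) →ₗ[ℂ] (Fin n → ℂ)) = 1 := hx
    have hy' : (y.2 : ℂ) ^ n * LinearMap.det
      ((y.1 : (Fin n → ℂ) ≃ₗ[ℂ] (Fin n → ℂ)) : (Fin n → ℂ) →ₗ[ℂ] (Fin n → ℂ)) = 1 := hy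
    linear_combination ((y.2 : ℂ) ^ n * LinearMap.det
      ((y.1 : (Fin n → ℂ) ≃ₗ[ℂ] (Fin n → ℂ)) : (Fin n → ℂ) →ₗ[ℂ] (Fin n → ℂ))) * hx' + hy'
  one_mem' := by
    have h1 : (((1 : G × ℂˣ).1 : (Fin n → ℂ) ≃ₗ[ℂ] (Fin n → ℂ)) :
        (Fin n → ℂ) →ₗ[ℂ] (Fin n → ℂ)) = LinearMap.id := rfl
    change ((1 : G × ℂˣ).2 : ℂ) ^ n * LinearMap.det _ = 1
    rw [h1, LinearMap.det_id, Prod.snd_one, Units.val_one, one_pow, one_mul]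
  inv_mem' := by
    rintro x hx
    have h1 : (((x⁻¹).1 : (Fin n → ℂ) ≃ₗ[ℂ] (Fin n → ℂ)) : (Fin n → ℂ) →ₗ[ℂ] (Fin n → ℂ)) ∘ₗ
        ((x.1 : (Fin n → ℂ) ≃ₗ[ℂ] (Fin n → ℂ)) : (Fin n → ℂ) →ₗ[ℂ] (Fin n → ℂ)) =
        LinearMap.id := by
      refine LinearMap.ext fun v => ?_
      exact (x.1 : (Fin n → ℂ) ≃ₗ[ℂ] (Fin n → ℂ)).symm_apply_apply v
    have h2 := congrArg LinearMap.det h1
    rw [LinearMap.det_comp, LinearMap.det_id] at h2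
    have hx' : (x.2 : ℂ) ^ n * LinearMap.det
      ((x.1 : (Fin n → ℂ) ≃ₗ[ℂ] (Fin n → ℂ)) : (Fin n → ℂ) →ₗ[ℂ] (Fin n → ℂ)) = 1 := hx
    change ((x⁻¹).2 : ℂ) ^ n * LinearMap.det _ = 1
    have h3 : ((x⁻¹).2 : ℂ) * (x.2 : ℂ) = 1 := by
      rw [Prod.snd_inv]
      exact x.2.inv_mul
    have h4 : ((x⁻¹).2 : ℂ) ^ n * (x.2 : ℂ) ^ n = 1 := by rw [← mul_pow, h3, one_pow]
    set A := ((x⁻¹).2 : ℂ) ^ n
    set B := LinearMap.det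
      (((x⁻¹).1 : (Fin n → ℂ) ≃ₗ[ℂ] (Fin n → ℂ)) : (Fin n → ℂ) →ₗ[ℂ] (Fin n → ℂ))
    set C := (x.2 : ℂ) ^ n
    set D := LinearMap.det
      ((x.1 : (Fin n → ℂ) ≃ₗ[ℂ] (Fin n → ℂ)) : (Fin n → ℂ) →ₗ[ℂ] (Fin n → ℂ))
    calc A * B = (A * B) * (C * D) := by rw [hx', mul_one]
      _ = (A * C) * (B * D) := by ring
      _ = 1 := by rw [h4, h2, one_mul]

/-- the scalar multiple -/
noncomputable def s2T {n : ℕ} (G : Subgroup ((Fin n → ℂ) ≃ₗ[ℂ] (Fin n → ℂ))) :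
    s2S G →* ((Fin n → ℂ) ≃ₗ[ℂ] (Fin n → ℂ)) where
  toFun x := LinearEquiv.smulOfNeZero ℂ (Fin n → ℂ) (x.1.2 : ℂ) x.1.2.ne_zero *
    (x.1.1 : (Fin n → ℂ) ≃ₗ[ℂ] (Fin n → ℂ))
  map_one' := by
    refine LinearEquiv.ext fun v => ?_
    change (1 : ℂ) • v = v
    rw [one_smul]
  map_mul' := by
    intro x y
    refine LinearEquiv.ext fun v => ?_
    change ((x.1.2 * y.1.2 : ℂˣ) : ℂ) •
      ((x.1.1 : (Fin n → ℂ) ≃ₗ[ℂ] (Fin n → ℂ)) ((y.1.1 : (Fin n → ℂ) ≃ₗ[ℂ] (Fin n → ℂ)) v)) =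
      (x.1.2 : ℂ) • ((x.1.1 : (Fin n → ℂ) ≃ₗ[ℂ] (Fin n → ℂ))
        ((y.1.2 : ℂ) • ((y.1.1 : (Fin n → ℂ) ≃ₗ[ℂ] (Fin n → ℂ)) v)))
    rw [map_smul, smul_smul, Units.val_mul]

theorem s2T_apply {n : ℕ} (G : Subgroup ((Fin n → ℂ) ≃ₗ[ℂ] (Fin n → ℂ))) (x : s2S G)
    (v : Fin n → ℂ) : s2T G x v = (x.1.2 : ℂ) • (x.1.1 : (Fin n → ℂ) ≃ₗ[ℂ] (Fin n → ℂ)) v := rfl

theorem s2S_finite {n : ℕ} (hn : 0 < n) (G : Subgroup ((Fin n → ℂ) ≃ₗ[ℂ] (Fin n → ℂ)))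
    [Finite G] : Finite (s2S G) := by
  classical
  have h1 : (((s2S G : Subgroup (G × ℂˣ)) : Set (G × ℂˣ))).Finite := by
    have h2 : (((s2S G : Subgroup (G × ℂˣ)) : Set (G × ℂˣ))) ⊆
        ⋃ g : G, (fun u : ℂˣ => (g, u)) '' {u : ℂˣ | (u : ℂ) ∈ (Polynomial.nthRoots n
          (LinearMap.det ((g : (Fin n → ℂ) ≃ₗ[ℂ] (Fin n → ℂ)) :
            (Fin n → ℂ) →ₗ[ℂ] (Fin n → ℂ)))⁻¹).toFinset} := by
      rintro x hx
      refine Set.mem_iUnion.2 ⟨x.1, x.2, ?_, rfl⟩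
      have hx' : (x.2 : ℂ) ^ n * LinearMap.det
        ((x.1 : (Fin n → ℂ) ≃ₗ[ℂ] (Fin n → ℂ)) : (Fin n → ℂ) →ₗ[ℂ] (Fin n → ℂ)) = 1 := hx
      change (x.2 : ℂ) ∈ (Polynomial.nthRoots n _).toFinset
      rw [Multiset.mem_toFinset, Polynomial.mem_nthRoots hn]
      exact eq_inv_of_mul_eq_one_left hx'
    refine Set.Finite.subset (Set.finite_iUnion fun g => Set.Finite.image _ ?_) h2
    exact Set.Finite.preimage (f := fun u : ℂˣ => (u : ℂ)) (Units.val_injective.injOn)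
      (Finset.finite_toSet _)
  exact h1.to_subtype

theorem st_SYL2 (hLCO : ST_LCO) (hSYL1 : ST_SYL1) : ST_SYL2 := by
  classical
  intro n k ι _ z hz hk hcard htr
  have hZ : IsComponents (fun i => ln (z i)) := hLCO n ι z hz
  have hne : Nonempty ι := by
    have h0 : Nat.card ι ≠ 0 := by
      rw [hcard]; exact pow_ne_zero _ two_ne_zero
    exact (Nat.card_ne_zero.1 h0).1
  have hn : 0 < n := by
    rcases Nat.eq_zero_or_pos n with h | h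
    · subst h
      obtain ⟨i₀⟩ := hne
      exact absurd (Subsingleton.elim (z i₀) 0) (hz.ne i₀)
    · exact h
  obtain ⟨G, hG, hGU, hGtr⟩ := bs_finite (fun i => ln (z i)) hZ htr
  choose! σ hσ using fun g (hg : g ∈ G) => bs_perm (fun i => ln (z i)) hZ g (hGU g hg)
  have huniq : ∀ i j, ln (z i) = ln (z j) → i = j := fun i j h => hZ.irredundant i j h.le
  have hσmul : ∀ g ∈ G, ∀ h ∈ G, σ (g * h) = σ g * σ h := by
    intro g hg h hh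
    refine Equiv.ext fun i => huniq _ _ ?_
    have e1 := hσ (g * h) (G.mul_mem hg hh) i
    have e2 : ((g * h : (Fin n → ℂ) ≃ₗ[ℂ] (Fin n → ℂ)) : (Fin n → ℂ) → (Fin n → ℂ)) =
        g ∘ h := rfl
    have e3 := hσ h hh i
    have e4 := hσ g hg (σ h i)
    beta_reduce at e1 e3 e4
    rw [← e1, e2, Set.image_comp, e3, e4]
    rfl
  let π : s2S G →* Equiv.Perm ι :=
    MonoidHom.mk' (fun x => σ (x.1.1 : (Fin n → ℂ) ≃ₗ[ℂ] (Fin n → ℂ)))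
      (fun x y => hσmul _ x.1.1.2 _ y.1.1.2)
  have hπ : ∀ x : s2S G, π x = σ (x.1.1 : (Fin n → ℂ) ≃ₗ[ℂ] (Fin n → ℂ)) := fun x => rfl
  have hscale : ∀ (c : ℂ), c ≠ 0 → ∀ i (φ : (Fin n → ℂ) → (Fin n → ℂ)) (j : ι),
      φ '' ln (z i) = ln (z j) → (fun x => c • φ x) '' ln (z i) = ln (z j) := by
    intro c hc i φ j h
    refine Set.Subset.antisymm ?_ ?_
    · rintro _ ⟨x, hx, rfl⟩
      refine hZ.cone j c _ ?_
      beta_reduce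
      rw [← h]
      exact ⟨x, hx, rfl⟩
    · intro y hy
      have h1 : c⁻¹ • y ∈ ln (z j) := hZ.cone j _ _ hy
      rw [← h] at h1
      obtain ⟨x, hx, hxy⟩ := h1
      refine ⟨x, hx, ?_⟩
      change c • φ x = y
      rw [hxy, smul_smul, mul_inv_cancel₀ hc, one_smul]
  have hT : ∀ (x : s2S G) (i : ι), (fun v => s2T G x v) '' ln (z i) = ln (z (π x i)) := by
    intro x i
    have h1 := hscale (x.1.2 : ℂ) x.1.2.ne_zero i _ _ (hσ _ x.1.1.2 i)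
    rw [hπ]
    exact h1
  have := s2S_finite hn G
  have hπtr : ∀ i j, ∃ s, π s i = j := by
    intro i j
    obtain ⟨g, hg, hgi⟩ := hGtr i j
    have hd : LinearMap.det (g : (Fin n → ℂ) →ₗ[ℂ] (Fin n → ℂ)) ≠ 0 :=
      (LinearEquiv.isUnit_det' g).ne_zero
    obtain ⟨lam, hlam⟩ := IsAlgClosed.exists_pow_nat_eq
      ((LinearMap.det (g : (Fin n → ℂ) →ₗ[ℂ] (Fin n → ℂ)))⁻¹) hn
    have hlam0 : lam ≠ 0 := by
      rintro rfl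
      rw [zero_pow hn.ne'] at hlam
      exact inv_ne_zero hd hlam.symm
    refine ⟨⟨(⟨g, hg⟩, Units.mk0 lam hlam0), ?_⟩, ?_⟩
    · change lam ^ n * LinearMap.det (g : (Fin n → ℂ) →ₗ[ℂ] (Fin n → ℂ)) = 1
      rw [hlam, inv_mul_cancel₀ hd]
    · rw [hπ]
      change σ g i = j
      refine huniq _ _ ?_
      have e1 := hσ g hg i
      beta_reduce at e1 hgi
      rw [← e1, hgi]
  obtain ⟨P, m, hP, hPtr⟩ := hSYL1 (s2S G) ι k π hcard hπtr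
  have hdvd : Nat.card (P.map (s2T G)) ∣ 2 ^ m := by
    rw [← hP]
    exact Subgroup.card_map_dvd P (s2T G)
  obtain ⟨m', -, hm'⟩ := (Nat.dvd_prime_pow Nat.prime_two).1 hdvd
  have htrans : ∀ i j, ∃ g ∈ P.map (s2T G), (fun x => g x) '' ln (z i) = ln (z j) := by
    intro i j
    obtain ⟨s, hs, hsi⟩ := hPtr i j
    refine ⟨s2T G s, Subgroup.mem_map_of_mem _ hs, ?_⟩
    rw [hT, hsi]
  refine ⟨P.map (s2T G), m', ?_, hm', ?_, ?_, htrans⟩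
  · rcases Nat.eq_zero_or_pos m' with h0 | h0
    · exfalso
      rw [h0, pow_zero] at hm'
      have hbot : P.map (s2T G) = ⊥ := Subgroup.eq_bot_of_card_eq _ hm'
      have hsub : ∀ i j : ι, i = j := by
        intro i j
        obtain ⟨g, hg, hgi⟩ := htrans i j
        rw [hbot, Subgroup.mem_bot] at hg
        subst hg
        refine huniq _ _ ?_
        have e1 : (fun x => (1 : (Fin n → ℂ) ≃ₗ[ℂ] (Fin n → ℂ)) x) = id := rfl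
        rw [e1, Set.image_id] at hgi
        exact hgi
      have hsubs : Subsingleton ι := ⟨hsub⟩
      have h1 : Nat.card ι ≤ 1 := Finite.card_le_one_iff_subsingleton.2 hsubs
      have h2 : 2 ≤ 2 ^ k := by
        calc 2 = 2 ^ 1 := (pow_one 2).symm
          _ ≤ 2 ^ k := Nat.pow_le_pow_right two_pos hk
      omega
    · exact h0
  · intro g hg
    obtain ⟨s, hs, rfl⟩ := hg
    have h1 : ((s2T G s : (Fin n → ℂ) ≃ₗ[ℂ] (Fin n → ℂ)) : (Fin n → ℂ) →ₗ[ℂ] (Fin n → ℂ)) =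
        (s.1.2 : ℂ) • ((s.1.1 : (Fin n → ℂ) ≃ₗ[ℂ] (Fin n → ℂ)) :
          (Fin n → ℂ) →ₗ[ℂ] (Fin n → ℂ)) := by
      refine LinearMap.ext fun v => ?_
      exact s2T_apply G s v
    rw [h1, LinearMap.det_smul, Module.finrank_fin_fun]
    exact s.2
  · intro g hg x hx
    obtain ⟨s, hs, rfl⟩ := hg
    obtain ⟨i, hi⟩ := Set.mem_iUnion.1 hx
    refine Set.mem_iUnion.2 ⟨π s i, ?_⟩
    rw [← hT s i]
    exact ⟨x, hi, rfl⟩

end Pool.Agent.Helper87.PG
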